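import Mathlib

/-!
# The nine points of the grid
-/

namespace Pool.Helper16.F5

/-- points of the grid -/
abbrev Pt := Fin 3 × Fin 3

/-- the coordinate -1, 0, 1 -/
def cc (i : Fin 3) : ℤ := (i : ℕ) - 1

/-- the orientation determinant -/
def dt (s t r : Pt) : ℤ :=
  (cc t.1 - cc s.1) * (cc r.2 - cc s.2) - (cc t.2 - cc s.2) * (cc r.1 - cc s.1)

/-- the line through `s`, `t` contains a third grid point -/
def L3 (s t : Pt) : Prop :=
  s.2 = t.2 ∨ s.1 = t.1 ∨ (s.1 = s.2 ∧ t.1 = t.2) ∨ (cc s.1 = - cc s.2 ∧ cc t.1 = - cc t.2)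

instance (s t : Pt) : Decidable (L3 s t) := by unfold L3; infer_instance

theorem card_line : ∀ s t : Pt, s ≠ t →
    ((((Finset.univ.erase s).erase t).filter (fun r => dt s t r = 0)).card = 0 ∨
      ((((Finset.univ.erase s).erase t).filter (fun r => dt s t r = 0)).card = 1 ∧ L3 s t)) := by
  decide

theorem dt_vals : ∀ s t r : Pt, dt s t r = 0 ∨ dt s t r = 1 ∨ dt s t r = -1 ∨ dt s t r = 2 ∨
    dt s t r = -2 ∨ dt s t r = 3 ∨ dt s t r = -3 ∨ dt s t r = 4 ∨ dt s t r = -4 := by
  decide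

theorem dt_ne {k : Type*} [Field k] (h2 : (2 : k) ≠ 0) (h3 : (3 : k) ≠ 0) (s t r : Pt)
    (h : dt s t r ≠ 0) : ((dt s t r : ℤ) : k) ≠ 0 := by
  have h4 : (4 : k) ≠ 0 := by
    have : (4 : k) = 2 * 2 := by norm_num
    rw [this]; exact mul_ne_zero h2 h2
  rcases dt_vals s t r with h' | h' | h' | h' | h' | h' | h' | h' | h' <;> rw [h']
  · exact absurd h' h
  all_goals push_cast
  · exact one_ne_zero
  · exact neg_ne_zero.2 one_ne_zero
  · exact h2
  · exact neg_ne_zero.2 h2
  · exact h3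
  · exact neg_ne_zero.2 h3
  · exact h4
  · exact neg_ne_zero.2 h4

theorem comb (a : Pt → ℕ)
    (hcol : ∀ s t r, 0 < a s → 0 < a t → 0 < a r → dt s t r = 0) :
    ∃ s t, s ≠ t ∧ a t ≤ a s ∧
      (∑ r, a r ≤ a s + a t ∨ (L3 s t ∧ ∑ r, a r ≤ a s + 2 * a t)) := by
  obtain ⟨s, -, hs⟩ := Finset.exists_max_image (Finset.univ : Finset Pt) a ⟨(0, 0), Finset.mem_univ _⟩
  have hne : (Finset.univ.erase s : Finset Pt).Nonempty := by
    rw [← Finset.card_pos, Finset.card_erase_of_mem (Finset.mem_univ s), Finset.card_univ]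
    simp
  obtain ⟨t, ht, hmax⟩ := Finset.exists_max_image (Finset.univ.erase s : Finset Pt) a hne
  have hst : s ≠ t := (Finset.ne_of_mem_erase ht).symm
  refine ⟨s, t, hst, hs t (Finset.mem_univ t), ?_⟩
  have e1 : ∑ r, a r = a s + (a t + ∑ r ∈ (Finset.univ.erase s).erase t, a r) := by
    rw [Finset.add_sum_erase _ _ ht, Finset.add_sum_erase _ _ (Finset.mem_univ s)]
  have e2 : ∑ r ∈ (Finset.univ.erase s).erase t, a r
      ≤ (((Finset.univ.erase s).erase t).filter (fun r => dt s t r = 0)).card * a t := by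
    have : ∑ r ∈ (Finset.univ.erase s).erase t, a r
        ≤ ∑ r ∈ (Finset.univ.erase s).erase t, if dt s t r = 0 then a t else 0 := by
      apply Finset.sum_le_sum
      intro r hr
      have hr1 : a r ≤ a t := hmax r (Finset.mem_of_mem_erase hr)
      split_ifs with h
      · exact hr1
      · by_contra hcon
        push Not at hcon
        have h1 : 0 < a t := lt_of_lt_of_le hcon hr1
        exact h (hcol s t r (lt_of_lt_of_le h1 (hs t (Finset.mem_univ t))) h1 hcon)
    refine this.trans ?_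
    rw [← Finset.sum_filter, Finset.sum_const, smul_eq_mul]
  rcases card_line s t hst with h | ⟨h, hL⟩
  · left
    rw [h, zero_mul] at e2
    omega
  · right
    refine ⟨hL, ?_⟩
    rw [h, one_mul] at e2
    omega

/-- linear algebra: three non collinear grid points determine `f, d, e` -/
theorem solve {k : Type*} [Field k] (h2 : (2 : k) ≠ 0) (h3 : (3 : k) ≠ 0) (f d e : k) (s t r : Pt)
    (hdt : dt s t r ≠ 0) (hs : f + (cc s.1 : k) * d + (cc s.2 : k) * e = 0)
    (ht : f + (cc t.1 : k) * d + (cc t.2 : k) * e = 0)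
    (hr : f + (cc r.1 : k) * d + (cc r.2 : k) * e = 0) : f = 0 ∧ d = 0 ∧ e = 0 := by
  have hk := dt_ne h2 h3 s t r hdt
  have e1 : ((dt s t r : ℤ) : k) * d = 0 := by
    unfold dt; push_cast
    linear_combination ((cc r.2 : k) - cc s.2) * (ht - hs) - ((cc t.2 : k) - cc s.2) * (hr - hs)
  have e2 : ((dt s t r : ℤ) : k) * e = 0 := by
    unfold dt; push_cast
    linear_combination ((cc t.1 : k) - cc s.1) * (hr - hs) - ((cc r.1 : k) - cc s.1) * (ht - hs)
  have hd := (mul_eq_zero.1 e1).resolve_left hk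
  have he := (mul_eq_zero.1 e2).resolve_left hk
  refine ⟨?_, hd, he⟩
  rw [hd, he] at hs
  linear_combination hs

end Pool.Helper16.F5
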