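import Pool.Agent.Helper16.F5.Local

/-!
# The degree of `P`
-/

namespace Pool.Helper16.F5

open Polynomial

variable {k : Type*} [Field k]

theorem dadd {a b : k[X]} {m : ℕ} (ha : a.natDegree ≤ m) (hb : b.natDegree ≤ m) :
    (a + b).natDegree ≤ m := (natDegree_add_le a b).trans (max_le ha hb)

theorem dmul {a b : k[X]} {i j m : ℕ} (ha : a.natDegree ≤ i) (hb : b.natDegree ≤ j)
    (h : i + j ≤ m) : (a * b).natDegree ≤ m := natDegree_mul_le.trans (by omega)

theorem dnum (n : ℕ) [n.AtLeastTwo] : (OfNat.ofNat n : k[X]).natDegree ≤ 0 := by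
  rw [natDegree_ofNat]

theorem dmul0 {a b : k[X]} {m : ℕ} (ha : a.natDegree ≤ 0) (hb : b.natDegree ≤ m) :
    (a * b).natDegree ≤ m := dmul ha hb (by omega)

theorem dC (a : k) : (C a : k[X]).natDegree ≤ 0 := by rw [natDegree_C]

theorem LL_deg (s1 s2 : k) (p0 q1 q2 : k[X]) (α β : ℕ) (hab : α ≤ β) (hp : p0.natDegree ≤ β)
    (h1 : q1.natDegree ≤ α) (h2 : q2.natDegree ≤ α) :
    (LL (C s1) (C s2) p0 q1 q2).natDegree ≤ β := by
  unfold LL
  have c1 : (9 * C s1 ^ 2 * C s2 ^ 2 - 3 * C s1 ^ 2 - 3 * C s2 ^ 2 + 1 : k[X])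
      = C (9 * s1 ^ 2 * s2 ^ 2 - 3 * s1 ^ 2 - 3 * s2 ^ 2 + 1) := by
    simp only [map_sub, map_add, map_mul, map_pow, map_one, map_ofNat]
  have c2 : (6 * C s1 * C s2 : k[X]) = C (6 * s1 * s2) := by
    simp only [map_mul, map_ofNat]
  rw [c1, c2]
  exact dadd (dmul0 (dC _) hp) (dmul0 (dC _)
    (dadd (dmul0 (dC _) (h1.trans hab)) (dmul0 (dC _) (h2.trans hab))))

theorem QQ_deg (s1 s2 : k) (f d e p0 q1 q2 : k[X]) (n α β : ℕ) (hab : α ≤ β)
    (hf : f.natDegree ≤ n) (hd : d.natDegree ≤ n) (he : e.natDegree ≤ n)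
    (hp : p0.natDegree ≤ β) (h1 : q1.natDegree ≤ α) (h2 : q2.natDegree ≤ α) :
    (QQ (C s1) (C s2) f d e p0 q1 q2).natDegree ≤ n + (2 * α + 2 * β) := by
  have e1 : QQ (C s1) (C s2) f d e p0 q1 q2 =
      C 3 * f * ((q1 * q2 + C s2 * p0 * q1 + C s1 * p0 * q2) * (q1 * q2 + C s2 * p0 * q1 + C s1 * p0 * q2)
        + C (2 * s1 * s2) * ((p0 * q1) * (p0 * q2)))
      + d * (p0 * ((q1 * q1) * (q1 + C (3 * s1) * p0) + (C 3 * q1 * q2) * (q2 + C (2 * s2) * p0)
        + C (3 * s1) * (p0 * (q2 * q2))))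
      + e * (p0 * ((q2 * q2) * (q2 + C (3 * s2) * p0) + (C 3 * q1 * q2) * (q1 + C (2 * s1) * p0)
        + C (3 * s2) * (p0 * (q1 * q1)))) := by
    unfold QQ
    simp only [map_mul, map_ofNat]
    ring
  rw [e1]
  have T : (q1 * q2 + C s2 * p0 * q1 + C s1 * p0 * q2).natDegree ≤ α + β :=
    dadd (dadd (dmul h1 h2 (by omega)) (dmul (dmul0 (dC _) hp) h1 (by omega)))
      (dmul (dmul0 (dC _) hp) h2 (by omega))
  refine dadd (dadd ?_ ?_) ?_
  · refine dmul (dmul0 (dC _) hf) (dadd (dmul T T le_rfl) (dmul0 (dC _)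
      (dmul (dmul hp h1 le_rfl) (dmul hp h2 le_rfl) (by omega)))) (by omega)
  · refine dmul hd (dmul hp (m := 2 * α + 2 * β) (j := 2 * α + β) (dadd (dadd ?_ ?_) ?_)
      (by omega)) (by omega)
    · exact dmul (dmul h1 h1 le_rfl) (dadd (h1.trans hab) (dmul0 (dC _) hp)) (by omega)
    · exact dmul (dmul (dmul0 (dC _) h1) h2 le_rfl) (dadd (h2.trans hab) (dmul0 (dC _) hp))
        (by omega)
    · exact dmul0 (dC _) (dmul hp (dmul h2 h2 le_rfl) (by omega))
  · refine dmul he (dmul hp (m := 2 * α + 2 * β) (j := 2 * α + β) (dadd (dadd ?_ ?_) ?_)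
      (by omega)) (by omega)
    · exact dmul (dmul h2 h2 le_rfl) (dadd (h2.trans hab) (dmul0 (dC _) hp)) (by omega)
    · exact dmul (dmul (dmul0 (dC _) h1) h2 le_rfl) (dadd (h1.trans hab) (dmul0 (dC _) hp))
        (by omega)
    · exact dmul0 (dC _) (dmul hp (dmul h1 h1 le_rfl) (by omega))

theorem wr_deg (a b : k[X]) (m : ℕ) (hm : 1 ≤ m) (h : a.natDegree + b.natDegree ≤ m) :
    (a * derivative b - b * derivative a).natDegree ≤ m - 1 := by
  by_cases h0 : a * derivative b - b * derivative a = 0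
  · rw [h0]; simp
  · have e1 : wronskian a b = a * derivative b - b * derivative a := by
      unfold wronskian; ring
    rw [← e1] at h0 ⊢
    have := natDegree_wronskian_lt_add h0
    omega

/-- bound for the degree of `P` -/
theorem PPd_deg (s1 s2 : k) (h1 : s1 ^ 3 = s1) (h2 : s2 ^ 3 = s2) (f d e : k[X]) (v1 v2 : k)
    (hv : v1 ≠ 0 ∨ v2 ≠ 0) (n A B : ℕ) (hn : 1 ≤ n) (hBA : B ≤ A) (hAn : A ≤ n)
    (hf : f.natDegree ≤ n) (hd : d.natDegree ≤ n) (he : e.natDegree ≤ n)
    (hu : (f + C s1 * d + C s2 * e).natDegree ≤ n - A)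
    (hD : (C v1 * d + C v2 * e).natDegree ≤ n - B) :
    (PPd f d e).natDegree + (A + 2 * B + 4) ≤ 9 * n := by
  rw [PPd_eq s1 s2 h1 h2 f d e _ rfl]
  set u := f + C s1 * d + C s2 * e with hudef
  have hp : (d * derivative e - e * derivative d).natDegree ≤ 2 * n - B - 1 := by
    rcases hv with hv | hv
    · have e1 : d * derivative e - e * derivative d = C v1⁻¹ *
          ((C v1 * d + C v2 * e) * derivative e - e * derivative (C v1 * d + C v2 * e)) := by
        have : (C v1⁻¹ * C v1 : k[X]) = 1 := by rw [← C_mul, inv_mul_cancel₀ hv, C_1]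
        simp only [derivative_add, derivative_mul, derivative_C, zero_mul, zero_add]
        linear_combination (-(d * derivative e - e * derivative d)) * this
      rw [e1]
      exact dmul0 (dC _) (wr_deg _ _ (2 * n - B) (by omega) (by omega))
    · have e1 : d * derivative e - e * derivative d = C v2⁻¹ *
          (d * derivative (C v1 * d + C v2 * e) - (C v1 * d + C v2 * e) * derivative d) := by
        have : (C v2⁻¹ * C v2 : k[X]) = 1 := by rw [← C_mul, inv_mul_cancel₀ hv, C_1]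
        simp only [derivative_add, derivative_mul, derivative_C, zero_mul, zero_add]
        linear_combination (-(d * derivative e - e * derivative d)) * this
      rw [e1]
      exact dmul0 (dC _) (wr_deg _ _ (2 * n - B) (by omega) (by omega))
  have hq1 : (e * derivative u - u * derivative e).natDegree ≤ 2 * n - A - 1 :=
    wr_deg _ _ (2 * n - A) (by omega) (by omega)
  have hq2 : (u * derivative d - d * derivative u).natDegree ≤ 2 * n - A - 1 :=
    wr_deg _ _ (2 * n - A) (by omega) (by omega)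
  have key : ∀ y : k[X], y.natDegree ≤ 9 * n - (A + 2 * B + 4) →
      y.natDegree + (A + 2 * B + 4) ≤ 9 * n := by
    intro y hy; omega
  apply key
  apply dadd
  · refine dmul (dmul hu (natDegree_pow_le_of_le 3 hp) le_rfl)
      (LL_deg s1 s2 _ _ _ (2 * n - A - 1) (2 * n - B - 1) (by omega) hp hq1 hq2) (by omega)
  · exact (QQ_deg s1 s2 f d e _ _ _ n (2 * n - A - 1) (2 * n - B - 1) (by omega) hf hd he hp
      hq1 hq2).trans (by omega)

end Pool.Helper16.F5
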