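import Pool.Agent.Helper16.F5.Deg

/-!
# Lemma P: the polynomial `P` vanishes on every 3 x 3 grid of squares
-/

namespace Pool.Helper16.F5

open Polynomial

variable {k : Type*} [Field k]

theorem PPd_zero (f d e : k[X]) (s : Pt) (h : XX f d e s = 0) : PPd f d e = 0 := by
  rw [PPd_eq _ _ (cc_cube s.1) (cc_cube s.2) f d e 0 h.symm]
  simp [LL, QQ]

theorem rootMult_prod {ι : Type*} (S : Finset ι) (z : ι → k[X]) (hz : ∀ i ∈ S, z i ≠ 0) (x : k) :
    rootMultiplicity x (∏ i ∈ S, z i) = ∑ i ∈ S, rootMultiplicity x (z i) := by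
  classical
  induction S using Finset.induction_on with
  | empty => simp
  | insert a S ha ih =>
    rw [Finset.prod_insert ha, Finset.sum_insert ha, rootMultiplicity_mul,
      ih (fun i hi => hz i (Finset.mem_insert_of_mem hi))]
    apply mul_ne_zero (hz a (Finset.mem_insert_self a S))
    exact Finset.prod_ne_zero_iff.2 (fun i hi => hz i (Finset.mem_insert_of_mem hi))

theorem eval_XX (f d e : k[X]) (s : Pt) (x : k) :
    (XX f d e s).eval x = f.eval x + ((cc s.1 : ℤ) : k) * d.eval x + ((cc s.2 : ℤ) : k) * e.eval x := by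
  unfold XX; simp

theorem coeff_XX (f d e : k[X]) (s : Pt) (n : ℕ) :
    (XX f d e s).coeff n = f.coeff n + ((cc s.1 : ℤ) : k) * d.coeff n
      + ((cc s.2 : ℤ) : k) * e.coeff n := by
  unfold XX; simp only [coeff_add, coeff_C_mul]

theorem prod_dvd [IsAlgClosed k] (h2 : (2 : k) ≠ 0) (h3 : (3 : k) ≠ 0) (f d e : k[X])
    (z : Pt → k[X]) (hz : ∀ s, XX f d e s = z s ^ 2) (hnz : ∀ s, z s ≠ 0)
    (hnc : ∀ x, ¬ (f.eval x = 0 ∧ d.eval x = 0 ∧ e.eval x = 0)) (hP : PPd f d e ≠ 0) :
    (∏ s, z s) ^ 2 ∣ PPd f d e := by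
  classical
  have hpr : (∏ s, z s) ≠ 0 := Finset.prod_ne_zero_iff.2 (fun s _ => hnz s)
  rw [IsAlgClosed.dvd_iff_roots_le_roots (pow_ne_zero 2 hpr) hP, Multiset.le_iff_count]
  intro x
  rw [count_roots, count_roots, sq, rootMultiplicity_mul (mul_ne_zero hpr hpr),
    rootMult_prod _ _ (fun s _ => hnz s), ← two_mul, le_rootMultiplicity_iff hP]
  have hev : ∀ s, 0 < rootMultiplicity x (z s) → (XX f d e s).eval x = 0 := by
    intro s hs
    have : (z s).eval x = 0 := (rootMultiplicity_pos (hnz s)).1 hs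
    rw [hz s, eval_pow, this, zero_pow two_ne_zero]
  obtain ⟨s, t, hst, hab, hsum⟩ := comb (fun s => rootMultiplicity x (z s)) (by
    intro s t r hs ht hr
    by_contra hdt
    have h1 := hev s hs
    have h2' := hev t ht
    have h3' := hev r hr
    rw [eval_XX] at h1 h2' h3'
    exact hnc x (solve h2 h3 _ _ _ s t r hdt h1 h2' h3'))
  have hloc := local_two h2 f d e s t hst (X - C x) (z s) (z t) (hz s) (hz t)
    (rootMultiplicity x (z s)) (rootMultiplicity x (z t)) hab
    (pow_rootMultiplicity_dvd _ _) (pow_rootMultiplicity_dvd _ _)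
  rcases hsum with h | ⟨hL, h⟩
  · refine (pow_dvd_pow _ ?_).trans hloc.1
    exact Nat.mul_le_mul_left 2 h
  · refine (pow_dvd_pow _ ?_).trans (hloc.2 hL)
    exact Nat.mul_le_mul_left 2 h

theorem closed_nc [IsAlgClosed k] (h2 : (2 : k) ≠ 0) (h3 : (3 : k) ≠ 0) (f d e : k[X])
    (z : Pt → k[X]) (hz : ∀ s, XX f d e s = z s ^ 2) (hnz : ∀ s, z s ≠ 0)
    (hnc : ∀ x, ¬ (f.eval x = 0 ∧ d.eval x = 0 ∧ e.eval x = 0)) : PPd f d e = 0 := by
  classical
  by_contra hP
  have hdvd := prod_dvd h2 h3 f d e z hz hnz hnc hP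
  have hpr : (∏ s, z s) ≠ 0 := Finset.prod_ne_zero_iff.2 (fun s _ => hnz s)
  have hdeg := natDegree_le_of_dvd hdvd hP
  rw [natDegree_pow, natDegree_prod _ _ (fun s _ => hnz s), Finset.mul_sum] at hdeg
  have hXd : ∀ s, 2 * (z s).natDegree = (XX f d e s).natDegree := by
    intro s; rw [hz s, natDegree_pow]
  rw [Finset.sum_congr rfl (fun s _ => hXd s)] at hdeg
  obtain ⟨n, hn⟩ : ∃ n, n = max f.natDegree (max d.natDegree e.natDegree) := ⟨_, rfl⟩
  have hf : f.natDegree ≤ n := by omega
  have hd : d.natDegree ≤ n := by omega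
  have he : e.natDegree ≤ n := by omega
  have hn1 : 1 ≤ n := by
    by_contra hcon
    apply hP
    have hf0 : derivative f = 0 := by
      rw [eq_C_of_natDegree_eq_zero (show f.natDegree = 0 by omega)]; simp
    have hd0 : derivative d = 0 := by
      rw [eq_C_of_natDegree_eq_zero (show d.natDegree = 0 by omega)]; simp
    have he0 : derivative e = 0 := by
      rw [eq_C_of_natDegree_eq_zero (show e.natDegree = 0 by omega)]; simp
    unfold PPd PP
    rw [hf0, hd0, he0]; ring
  have hXn : ∀ s, (XX f d e s).natDegree ≤ n := by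
    intro s
    unfold XX
    exact dadd (dadd hf (dmul0 (dC _) hd)) (dmul0 (dC _) he)
  have hcoeff : ∀ s, 0 < n - (XX f d e s).natDegree → (XX f d e s).coeff n = 0 := by
    intro s hs
    exact coeff_eq_zero_of_natDegree_lt (by omega)
  have hno : ¬ (f.coeff n = 0 ∧ d.coeff n = 0 ∧ e.coeff n = 0) := by
    rintro ⟨a, b, c⟩
    have key : ∀ y : k[X], y.natDegree ≤ n → y.coeff n = 0 → y.natDegree < n := by
      intro y hy h0
      rcases lt_or_eq_of_le hy with h | h
      · exact h
      · exfalso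
        rw [← h] at h0
        have hy0 : y = 0 := leadingCoeff_eq_zero.1 h0
        rw [hy0, natDegree_zero] at h
        omega
    have := key f hf a
    have := key d hd b
    have := key e he c
    omega
  obtain ⟨s, t, hst, hab, hsum⟩ := comb (fun s => n - (XX f d e s).natDegree) (by
    intro s t r hs ht hr
    by_contra hdt
    have h1 := hcoeff s hs
    have h2' := hcoeff t ht
    have h3' := hcoeff r hr
    rw [coeff_XX] at h1 h2' h3'
    exact hno (solve h2 h3 _ _ _ s t r hdt h1 h2' h3'))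
  have hv : ((cc t.1 : ℤ) : k) - ((cc s.1 : ℤ) : k) ≠ 0 ∨
      ((cc t.2 : ℤ) : k) - ((cc s.2 : ℤ) : k) ≠ 0 := by
    by_cases h : t.1 = s.1
    · right
      apply cc_sub_ne h2
      intro h'
      exact hst (Prod.ext h.symm h'.symm)
    · left; exact cc_sub_ne h2 _ _ h
  have hD : (C (((cc t.1 : ℤ) : k) - ((cc s.1 : ℤ) : k)) * d
      + C (((cc t.2 : ℤ) : k) - ((cc s.2 : ℤ) : k)) * e).natDegree
        ≤ n - (n - (XX f d e t).natDegree) := by
    have e1 : C (((cc t.1 : ℤ) : k) - ((cc s.1 : ℤ) : k)) * d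
      + C (((cc t.2 : ℤ) : k) - ((cc s.2 : ℤ) : k)) * e = XX f d e t - XX f d e s := by
      unfold XX
      simp only [C_sub]
      ring
    rw [e1]
    refine (natDegree_sub_le _ _).trans (max_le ?_ ?_)
    · have := hXn t; omega
    · have := hXn t; have := hXn s; omega
  have hbound := PPd_deg _ _ (cc_cube s.1) (cc_cube s.2) f d e _ _ hv n
    (n - (XX f d e s).natDegree) (n - (XX f d e t).natDegree) hn1 hab (Nat.sub_le _ _) hf hd he
    (by
      have := hXn s
      change (XX f d e s).natDegree ≤ _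
      omega) hD
  have hsum2 : ∑ r, (n - (XX f d e r).natDegree) ≤ (n - (XX f d e s).natDegree)
      + 2 * (n - (XX f d e t).natDegree) := by
    rcases hsum with h | ⟨-, h⟩
    · exact h.trans (by omega)
    · exact h
  have hsum3 : ∑ r : Pt, (XX f d e r).natDegree + ∑ r, (n - (XX f d e r).natDegree) = 9 * n := by
    rw [← Finset.sum_add_distrib]
    have : ∀ r : Pt, (XX f d e r).natDegree + (n - (XX f d e r).natDegree) = n := by
      intro r; have := hXn r; omega
    rw [Finset.sum_congr rfl (fun r _ => this r)]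
    simp [Finset.sum_const, Finset.card_univ]
  omega

theorem closed [IsAlgClosed k] (h2 : (2 : k) ≠ 0) (h3 : (3 : k) ≠ 0) (n : ℕ) :
    ∀ (f d e : k[X]) (z : Pt → k[X]), (∀ s, XX f d e s = z s ^ 2) → (z (1, 1)).natDegree = n →
      PPd f d e = 0 := by
  induction n using Nat.strong_induction_on with
  | _ n ih =>
    intro f d e z hz hn
    by_cases hnz : ∀ s, z s ≠ 0
    swap
    · push Not at hnz
      obtain ⟨s, hs⟩ := hnz
      exact PPd_zero f d e s (by rw [hz s, hs]; ring)
    by_cases hnc : ∀ x, ¬ (f.eval x = 0 ∧ d.eval x = 0 ∧ e.eval x = 0)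
    · exact closed_nc h2 h3 f d e z hz hnz hnc
    push Not at hnc
    obtain ⟨x, hfx, hdx, hex⟩ := hnc
    have hzx : ∀ s, (X - C x) ∣ z s := by
      intro s
      rw [dvd_iff_isRoot, IsRoot.def]
      have : (XX f d e s).eval x = 0 := by rw [eval_XX, hfx, hdx, hex]; ring
      rw [hz s, eval_pow] at this
      exact pow_eq_zero_iff (two_ne_zero) |>.1 this
    choose y hy using hzx
    have c1 : cc 1 = 0 := by decide
    have c2 : cc 2 = 1 := by decide
    have hf : f = (X - C x) ^ 2 * y (1, 1) ^ 2 := by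
      have := hz (1, 1)
      unfold XX at this
      simp only [c1, Int.cast_zero, C_0, zero_mul, add_zero] at this
      rw [this, hy (1, 1)]; ring
    have hd : d = (X - C x) ^ 2 * (y (2, 1) ^ 2 - y (1, 1) ^ 2) := by
      have := hz (2, 1)
      unfold XX at this
      simp only [c1, c2, Int.cast_zero, Int.cast_one, C_0, C_1, one_mul, zero_mul, add_zero] at this
      rw [hy (2, 1)] at this
      linear_combination this - hf
    have he : e = (X - C x) ^ 2 * (y (1, 2) ^ 2 - y (1, 1) ^ 2) := by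
      have := hz (1, 2)
      unfold XX at this
      simp only [c1, c2, Int.cast_zero, Int.cast_one, C_0, C_1, one_mul, zero_mul, add_zero] at this
      rw [hy (1, 2)] at this
      linear_combination this - hf
    have hp0 : (X - C x) ≠ 0 := X_sub_C_ne_zero x
    have hy0 : y (1, 1) ≠ 0 := by
      intro h
      exact hnz (1, 1) (by rw [hy, h, mul_zero])
    have hyd : (y (1, 1)).natDegree < n := by
      rw [← hn, hy (1, 1), natDegree_mul hp0 hy0, natDegree_X_sub_C]; omega
    have := ih _ hyd (y (1, 1) ^ 2) (y (2, 1) ^ 2 - y (1, 1) ^ 2) (y (1, 2) ^ 2 - y (1, 1) ^ 2) y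
      (by
        intro s
        apply mul_left_cancel₀ (pow_ne_zero 2 hp0)
        have e1 := hz s
        rw [hy s] at e1
        unfold XX at e1 ⊢
        rw [hf, hd, he] at e1
        linear_combination e1) rfl
    rw [hf, hd, he, PPd_scale, this, mul_zero]

/-- **Lemma P** -/
theorem lemmaP' (h2 : (2 : k) ≠ 0) (h3 : (3 : k) ≠ 0) (f d e : k[X])
    (hsq : ∀ s t : ℤ, |s| ≤ 1 → |t| ≤ 1 → IsSquare (f + (s : k[X]) * d + (t : k[X]) * e)) :
    PPd f d e = 0 := by
  set K := AlgebraicClosure k with hK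
  set φ : k →+* K := algebraMap k K with hφ
  have hinj : Function.Injective (Polynomial.map φ) :=
    Polynomial.map_injective φ (algebraMap k K).injective
  have hcc : ∀ i : Fin 3, |cc i| ≤ 1 := by decide
  have hz : ∀ s : Pt, ∃ z : K[X], XX (f.map φ) (d.map φ) (e.map φ) s = z ^ 2 := by
    intro s
    obtain ⟨y, hy⟩ := hsq (cc s.1) (cc s.2) (hcc _) (hcc _)
    refine ⟨y.map φ, ?_⟩
    have := congrArg (Polynomial.map φ) hy
    rw [Polynomial.map_mul, Polynomial.map_add, Polynomial.map_add, Polynomial.map_mul,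
      Polynomial.map_mul, Polynomial.map_intCast, Polynomial.map_intCast] at this
    rw [sq, ← this]
    unfold XX
    have hC : ∀ a : ℤ, (C ((a : ℤ) : K) : K[X]) = (a : K[X]) := fun a => _root_.map_intCast C a
    rw [hC, hC]
  choose z hz using hz
  have h2' : (2 : K) ≠ 0 := by
    have : (2 : K) = φ 2 := (_root_.map_ofNat φ 2).symm
    rw [this]
    exact (map_ne_zero φ).2 h2
  have h3' : (3 : K) ≠ 0 := by
    have : (3 : K) = φ 3 := (_root_.map_ofNat φ 3).symm
    rw [this]
    exact (map_ne_zero φ).2 h3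
  have hc := closed h2' h3' _ (f.map φ) (d.map φ) (e.map φ) z hz rfl
  apply hinj
  rw [Polynomial.map_zero, ← hc]
  unfold PPd PP
  simp only [Polynomial.map_add, Polynomial.map_mul, Polynomial.map_sub, Polynomial.map_pow,
    Polynomial.derivative_map, Polynomial.map_ofNat]

/-- **Lemma P**, interface form -/
theorem lemmaP {k : Type*} [Field k] (h2 : (2 : k) ≠ 0) (h3 : (3 : k) ≠ 0) (f d e : k[X])
    (hsq : ∀ s t : ℤ, |s| ≤ 1 → |t| ≤ 1 → IsSquare (f + (s : k[X]) * d + (t : k[X]) * e)) :
    PP f d e (derivative f) (derivative d) (derivative e) = 0 := lemmaP' h2 h3 f d e hsq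

end Pool.Helper16.F5
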