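import Pool.Agent.Helper16.F5.PP
import Pool.Agent.Helper16.F5.Comb

/-!
# Divisibility of `P` near a point
-/

namespace Pool.Helper16.F5

open Polynomial

variable {k : Type*} [Field k]

/-- `P` of a triple of polynomials -/
noncomputable def PPd (f d e : k[X]) : k[X] :=
  PP f d e (derivative f) (derivative d) (derivative e)

theorem PPd_swap (f d e : k[X]) : PPd f e d = PPd f d e := PP_swap _ _ _ _ _ _

theorem PPd_neg (f d e : k[X]) : PPd f d (-e) = PPd f d e := by
  unfold PPd; rw [derivative_neg]; exact PP_neg _ _ _ _ _ _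

theorem PPd_scale (c f d e : k[X]) : PPd (c * f) (c * d) (c * e) = c ^ 9 * PPd f d e := by
  unfold PPd
  rw [derivative_mul, derivative_mul, derivative_mul]
  exact PP_scale _ _ _ _ _ _ _ _

theorem PPd_eq (s1 s2 : k) (h1 : s1 ^ 3 = s1) (h2 : s2 ^ 3 = s2) (f d e u : k[X])
    (hu : u = f + C s1 * d + C s2 * e) :
    PPd f d e = u * (d * derivative e - e * derivative d) ^ 3 *
        LL (C s1) (C s2) (d * derivative e - e * derivative d)
          (e * derivative u - u * derivative e) (u * derivative d - d * derivative u)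
      + QQ (C s1) (C s2) f d e (d * derivative e - e * derivative d)
          (e * derivative u - u * derivative e) (u * derivative d - d * derivative u) := by
  unfold PPd
  apply PP_eq
  · rw [← C_pow, h1]
  · rw [← C_pow, h2]
  · exact hu
  · rw [hu]; simp

theorem q_div (e u y : k[X]) (hu : u = y ^ 2) :
    e * derivative u - u * derivative e = y * (2 * e * derivative y - y * derivative e) := by
  rw [hu, derivative_pow]
  simp only [Nat.cast_ofNat, map_ofNat, Nat.add_one_sub_one, pow_one]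
  ring

theorem q_div' (d u y : k[X]) (hu : u = y ^ 2) :
    u * derivative d - d * derivative u = y * (y * derivative d - 2 * d * derivative y) := by
  rw [hu, derivative_pow]
  simp only [Nat.cast_ofNat, map_ofNat, Nat.add_one_sub_one, pow_one]
  ring

theorem qD_div (u D g al F : k[X]) (hu : u = (g * al) ^ 2) (hD : D = g ^ 2 * F) :
    u * derivative D - D * derivative u
      = g ^ 4 * al * (al * derivative F - 2 * derivative al * F) := by
  rw [hu, hD]
  simp only [derivative_mul, derivative_pow, Nat.cast_ofNat, map_ofNat, Nat.add_one_sub_one,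
    pow_one]
  ring

theorem p0_div (D e g F : k[X]) (hD : D = g ^ 2 * F) :
    D * derivative e - e * derivative D
      = g * (g * F * derivative e - 2 * e * derivative g * F - e * g * derivative F) := by
  rw [hD]
  simp only [derivative_mul, derivative_pow, Nat.cast_ofNat, map_ofNat, Nat.add_one_sub_one,
    pow_one]
  ring

/-- two vanishing forms -/
theorem loc2 (s1 s2 : k) (h1 : s1 ^ 3 = s1) (h2 : s2 ^ 3 = s2) (f d e g al F : k[X]) (v1 v2 : k)
    (hu : f + C s1 * d + C s2 * e = (g * al) ^ 2) (hD : C v1 * d + C v2 * e = g ^ 2 * F)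
    (hv : v1 ≠ 0 ∨ v2 ≠ 0) : g ^ 4 * al ^ 2 ∣ PPd f d e := by
  rw [PPd_eq s1 s2 h1 h2 f d e ((g * al) ^ 2) hu.symm]
  obtain ⟨r0, hr0⟩ : g ∣ d * derivative e - e * derivative d := by
    rcases hv with hv | hv
    · have e1 := p0_div _ e g F hD
      have e2 : (C v1 * d + C v2 * e) * derivative e - e * derivative (C v1 * d + C v2 * e)
          = C v1 * (d * derivative e - e * derivative d) := by
        simp only [derivative_add, derivative_mul, derivative_C, zero_mul, zero_add]
        ring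
      have hu1 : IsUnit (C v1 : k[X]) := isUnit_C.2 (isUnit_iff_ne_zero.2 hv)
      have e3 : g ∣ C v1 * (d * derivative e - e * derivative d) := by
        rw [← e2, e1]; exact dvd_mul_right _ _
      exact (hu1.dvd_mul_left).1 e3
    · have e1 := p0_div _ d g F hD
      have e2 : (C v1 * d + C v2 * e) * derivative d - d * derivative (C v1 * d + C v2 * e)
          = C (-v2) * (d * derivative e - e * derivative d) := by
        simp only [derivative_add, derivative_mul, derivative_C, zero_mul, zero_add, C_neg]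
        ring
      have hu1 : IsUnit (C (-v2) : k[X]) :=
        isUnit_C.2 (isUnit_iff_ne_zero.2 (neg_ne_zero.2 hv))
      have e3 : g ∣ C (-v2) * (d * derivative e - e * derivative d) := by
        rw [← e2, e1]; exact dvd_mul_right _ _
      exact (hu1.dvd_mul_left).1 e3
  exact D2 (C s1) (C s2) f d e _ _ _ _ g al r0 _ _ (by ring) hr0
    (q_div e _ _ rfl) (q_div' d _ _ rfl)

/-- three vanishing forms on a row -/
theorem loc3row (s1 s2 : k) (h1 : s1 ^ 3 = s1) (h2 : s2 ^ 3 = s2) (f d e g al F : k[X])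
    (hu : f + C s1 * d + C s2 * e = (g * al) ^ 2) (hD : d = g ^ 2 * F) :
    g ^ 6 * al ^ 2 ∣ PPd f d e := by
  rw [PPd_eq s1 s2 h1 h2 f d e ((g * al) ^ 2) hu.symm]
  refine D3row (C s1) (C s2) f d e _ _ _ _ g al _ _ _ F ?_ ?_ (by ring) (p0_div d e g F hD)
    (q_div e _ _ rfl) (qD_div _ d g al F rfl hD) hD
  · rw [← C_pow, h2]
  · rw [← hu]; ring

/-- three vanishing forms on a column -/
theorem loc3col (s1 s2 : k) (h1 : s1 ^ 3 = s1) (h2 : s2 ^ 3 = s2) (f d e g al F : k[X])
    (hu : f + C s1 * d + C s2 * e = (g * al) ^ 2) (hD : e = g ^ 2 * F) :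
    g ^ 6 * al ^ 2 ∣ PPd f d e := by
  rw [← PPd_swap]
  apply loc3row s2 s1 h2 h1 f e d g al F _ hD
  rw [← hu]; ring

/-- three vanishing forms on the main diagonal -/
theorem loc3diag (s : k) (h1 : s ^ 3 = s) (f d e g al F : k[X])
    (hu : f + C s * d + C s * e = (g * al) ^ 2) (hD : d + e = g ^ 2 * F) :
    g ^ 6 * al ^ 2 ∣ PPd f d e := by
  rw [PPd_eq s s h1 h1 f d e ((g * al) ^ 2) hu.symm]
  have e1 : d * derivative e - e * derivative d
      = g * (g * F * derivative e - 2 * e * derivative g * F - e * g * derivative F) := by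
    rw [← p0_div (d + e) e g F hD, derivative_add]; ring
  have e2 : (g * al) ^ 2 * derivative d - d * derivative ((g * al) ^ 2)
      = (e * derivative ((g * al) ^ 2) - (g * al) ^ 2 * derivative e)
        + g ^ 4 * al * (al * derivative F - 2 * derivative al * F) := by
    rw [← qD_div ((g * al) ^ 2) (d + e) g al F rfl hD, derivative_add]; ring
  refine D3diag (C s) f d e _ _ _ _ g al _ _ _ F ?_ (by ring) e1 (q_div e _ _ rfl) e2 hD
  rw [← hu]; ring

/-- three vanishing forms on the other diagonal -/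
theorem loc3anti (s : k) (h1 : s ^ 3 = s) (f d e g al F : k[X])
    (hu : f + C s * d + C (-s) * e = (g * al) ^ 2) (hD : d - e = g ^ 2 * F) :
    g ^ 6 * al ^ 2 ∣ PPd f d e := by
  rw [← PPd_neg]
  apply loc3diag s h1 f d (-e) g al F
  · rw [← hu, C_neg]; ring
  · rw [← hD]; ring

theorem cc_cube (i : Fin 3) : ((cc i : ℤ) : k) ^ 3 = ((cc i : ℤ) : k) := by
  have : ∀ i : Fin 3, cc i ^ 3 = cc i := by decide
  exact_mod_cast congrArg (Int.cast (R := k)) (this i)

theorem cc_inj : ∀ i j : Fin 3, i ≠ j → cc i - cc j = 1 ∨ cc i - cc j = -1 ∨ cc i - cc j = 2 ∨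
    cc i - cc j = -2 := by decide

theorem cc_sub_ne (h2 : (2 : k) ≠ 0) (i j : Fin 3) (h : i ≠ j) :
    ((cc i : ℤ) : k) - ((cc j : ℤ) : k) ≠ 0 := by
  have : ((cc i : ℤ) : k) - ((cc j : ℤ) : k) = ((cc i - cc j : ℤ) : k) := by push_cast; rfl
  rw [this]
  rcases cc_inj i j h with h' | h' | h' | h' <;> rw [h'] <;> push_cast
  · exact one_ne_zero
  · exact neg_ne_zero.2 one_ne_zero
  · exact h2
  · exact neg_ne_zero.2 h2

/-- the form attached to a grid point -/
noncomputable def XX (f d e : k[X]) (s : Pt) : k[X] :=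
  f + C ((cc s.1 : ℤ) : k) * d + C ((cc s.2 : ℤ) : k) * e

/-- local statement with two points -/
theorem local_two (h2 : (2 : k) ≠ 0) (f d e : k[X]) (s t : Pt) (hst : s ≠ t) (p zs zt : k[X])
    (hs : XX f d e s = zs ^ 2) (ht : XX f d e t = zt ^ 2) (a b : ℕ) (hab : b ≤ a)
    (ha : p ^ a ∣ zs) (hb : p ^ b ∣ zt) :
    p ^ (2 * (a + b)) ∣ PPd f d e ∧ (L3 s t → p ^ (2 * (a + 2 * b)) ∣ PPd f d e) := by
  obtain ⟨y, hy⟩ := ha
  obtain ⟨y', hy'⟩ := hb
  set g := p ^ b with hg
  set al := p ^ (a - b) * y with hal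
  have hzs : zs = g * al := by
    rw [hy, hal, hg, ← mul_assoc, ← pow_add, Nat.add_sub_cancel' hab]
  have hu : f + C ((cc s.1 : ℤ) : k) * d + C ((cc s.2 : ℤ) : k) * e = (g * al) ^ 2 := by
    rw [← hzs]; exact hs
  have hD : C (((cc t.1 : ℤ) : k) - ((cc s.1 : ℤ) : k)) * d
      + C (((cc t.2 : ℤ) : k) - ((cc s.2 : ℤ) : k)) * e = g ^ 2 * (y' ^ 2 - al ^ 2) := by
    have e1 : g ^ 2 * (y' ^ 2 - al ^ 2) = zt ^ 2 - zs ^ 2 := by rw [hy', hzs]; ring
    rw [e1, ← hs, ← ht]
    unfold XX
    simp only [C_sub]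
    ring
  have hcs1 : ((cc s.1 : ℤ) : k) ^ 3 = ((cc s.1 : ℤ) : k) := cc_cube s.1
  have hcs2 : ((cc s.2 : ℤ) : k) ^ 3 = ((cc s.2 : ℤ) : k) := cc_cube s.2
  constructor
  · have hv : ((cc t.1 : ℤ) : k) - ((cc s.1 : ℤ) : k) ≠ 0 ∨
        ((cc t.2 : ℤ) : k) - ((cc s.2 : ℤ) : k) ≠ 0 := by
      by_cases h : t.1 = s.1
      · right
        apply cc_sub_ne h2
        intro h'
        exact hst (Prod.ext h.symm h'.symm)
      · left; exact cc_sub_ne h2 _ _ h
    refine dvd_trans ?_ (loc2 _ _ hcs1 hcs2 f d e g al _ _ _ hu hD hv)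
    refine ⟨y ^ 2, ?_⟩
    rw [hal, hg]
    have : 2 * (a + b) = 4 * b + 2 * (a - b) := by omega
    rw [this]; ring
  · intro hL
    have key : g ^ 6 * al ^ 2 ∣ PPd f d e := by
      rcases hL with h | h | ⟨h, h'⟩ | ⟨h, h'⟩
      · -- s.2 = t.2
        have hne : t.1 ≠ s.1 := fun h' => hst (Prod.ext h'.symm h)
        have hv := cc_sub_ne (k := k) h2 _ _ hne
        set v := ((cc t.1 : ℤ) : k) - ((cc s.1 : ℤ) : k) with hvdef
        rw [h, sub_self, C_0, zero_mul, add_zero] at hD
        refine loc3row _ _ hcs1 hcs2 f d e g al (C v⁻¹ * (y' ^ 2 - al ^ 2)) hu ?_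
        have : d = C v⁻¹ * (C v * d) := by
          rw [← mul_assoc, ← C_mul, inv_mul_cancel₀ hv, C_1, one_mul]
        rw [this, hD]; ring
      · have hne : t.2 ≠ s.2 := fun h' => hst (Prod.ext h h'.symm)
        have hv := cc_sub_ne (k := k) h2 _ _ hne
        set v := ((cc t.2 : ℤ) : k) - ((cc s.2 : ℤ) : k) with hvdef
        rw [h, sub_self, C_0, zero_mul, zero_add] at hD
        refine loc3col _ _ hcs1 hcs2 f d e g al (C v⁻¹ * (y' ^ 2 - al ^ 2)) hu ?_
        have : e = C v⁻¹ * (C v * e) := by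
          rw [← mul_assoc, ← C_mul, inv_mul_cancel₀ hv, C_1, one_mul]
        rw [this, hD]; ring
      · have hne : t.1 ≠ s.1 := by
          intro h''
          apply hst
          apply Prod.ext h''.symm
          rw [← h, ← h', h'']
        have hv := cc_sub_ne (k := k) h2 _ _ hne
        rw [← h, ← h'] at hD
        rw [← h] at hu
        set v := ((cc t.1 : ℤ) : k) - ((cc s.1 : ℤ) : k) with hvdef
        refine loc3diag _ hcs1 f d e g al (C v⁻¹ * (y' ^ 2 - al ^ 2)) hu ?_
        have : d + e = C v⁻¹ * (C v * d + C v * e) := by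
          rw [← mul_add, ← mul_assoc, ← C_mul, inv_mul_cancel₀ hv, C_1, one_mul]
        rw [this, hD]; ring
      · have hs2 : cc s.2 = - cc s.1 := by rw [h]; ring
        have ht2 : cc t.2 = - cc t.1 := by rw [h']; ring
        have cinj : ∀ i j : Fin 3, cc i = cc j → i = j := by decide
        have hne : t.1 ≠ s.1 := by
          intro h''
          apply hst
          apply Prod.ext h''.symm
          apply cinj
          rw [hs2, ht2, h'']
        have hv := cc_sub_ne (k := k) h2 _ _ hne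
        rw [hs2, ht2] at hD
        rw [hs2] at hu
        set v := ((cc t.1 : ℤ) : k) - ((cc s.1 : ℤ) : k) with hvdef
        have hvm : (((-cc t.1 : ℤ) : k) - ((-cc s.1 : ℤ) : k)) = -v := by
          rw [hvdef]; push_cast; ring
        rw [hvm, C_neg] at hD
        refine loc3anti _ hcs1 f d e g al (C v⁻¹ * (y' ^ 2 - al ^ 2)) ?_ ?_
        · rw [← hu]; push_cast; rfl
        · have : d - e = C v⁻¹ * (C v * d + -C v * e) := by
            have : C v⁻¹ * (C v * d + -C v * e) = (C v⁻¹ * C v) * (d - e) := by ring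
            rw [this, ← C_mul, inv_mul_cancel₀ hv, C_1, one_mul]
          rw [this, hD]; ring
    refine dvd_trans ?_ key
    refine ⟨y ^ 2, ?_⟩
    rw [hal, hg]
    have : 2 * (a + 2 * b) = 6 * b + 2 * (a - b) := by omega
    rw [this]; ring

end Pool.Helper16.F5
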