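import Mathlib

/-!
# The polynomial `P` of a 3 x 3 grid of squares (helper329's magic square web)
-/

namespace Pool.Helper16.F5

/-- the quartic differential polynomial attached to a triple -/
def PP {R : Type*} [CommRing R] (f d e f' d' e' : R) : R :=
  3 * f * (e * f' - f * e') ^ 2 * (f * d' - d * f') ^ 2
    + d * (d * e' - e * d') * (e * f' - f * e') *
      ((e * f' - f * e') ^ 2 + 3 * (f * d' - d * f') ^ 2 - (d * e' - e * d') ^ 2)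
    + e * (d * e' - e * d') * (f * d' - d * f') *
      ((f * d' - d * f') ^ 2 + 3 * (e * f' - f * e') ^ 2 - (d * e' - e * d') ^ 2)

section
variable {R : Type*} [CommRing R]

theorem PP_swap (f d e f' d' e' : R) : PP f e d f' e' d' = PP f d e f' d' e' := by
  unfold PP; ring

theorem PP_neg (f d e f' d' e' : R) : PP f d (-e) f' d' (-e') = PP f d e f' d' e' := by
  unfold PP; ring

theorem PP_scale (c c' f d e f' d' e' : R) :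
    PP (c * f) (c * d) (c * e) (c' * f + c * f') (c' * d + c * d') (c' * e + c * e')
      = c ^ 9 * PP f d e f' d' e' := by
  unfold PP; ring

/-- the `L` factor -/
def LL (s1 s2 p0 q1 q2 : R) : R :=
  (9 * s1 ^ 2 * s2 ^ 2 - 3 * s1 ^ 2 - 3 * s2 ^ 2 + 1) * p0 + 6 * s1 * s2 * (s2 * q1 + s1 * q2)

/-- the quadratic part -/
def QQ (s1 s2 f d e p0 q1 q2 : R) : R :=
  3 * f * (q1 ^ 2 * q2 ^ 2 + 2 * s2 * p0 * q1 ^ 2 * q2 + s2 ^ 2 * p0 ^ 2 * q1 ^ 2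
      + 2 * s1 * p0 * q1 * q2 ^ 2 + 4 * s1 * s2 * p0 ^ 2 * q1 * q2 + s1 ^ 2 * p0 ^ 2 * q2 ^ 2)
    + d * p0 * (q1 ^ 3 + 3 * s1 * p0 * q1 ^ 2 + 3 * q1 * q2 ^ 2 + 6 * s2 * p0 * q1 * q2
      + 3 * s1 * p0 * q2 ^ 2)
    + e * p0 * (q2 ^ 3 + 3 * s2 * p0 * q2 ^ 2 + 3 * q2 * q1 ^ 2 + 6 * s1 * p0 * q1 * q2
      + 3 * s2 * p0 * q1 ^ 2)

/-- the main identity `P = u p0 ^ 3 L + Q` -/
theorem PP_eq (s1 s2 : R) (h1 : s1 ^ 3 = s1) (h2 : s2 ^ 3 = s2) (f d e f' d' e' u u' : R)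
    (hu : u = f + s1 * d + s2 * e) (hu' : u' = f' + s1 * d' + s2 * e') :
    PP f d e f' d' e' = u * (d * e' - e * d') ^ 3 *
        LL s1 s2 (d * e' - e * d') (e * u' - u * e') (u * d' - d * u')
      + QQ s1 s2 f d e (d * e' - e * d') (e * u' - u * e') (u * d' - d * u') := by
  have hpl : u * (d * e' - e * d') + d * (e * u' - u * e') + e * (u * d' - d * u') = 0 := by ring
  have hf : f = u - s1 * d - s2 * e := by rw [hu]; ring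
  have hf' : f' = u' - s1 * d' - s2 * e' := by rw [hu']; ring
  have e1 : e * f' - f * e' = (e * u' - u * e') + s1 * (d * e' - e * d') := by
    rw [hu, hu']; ring
  have e2 : f * d' - d * f' = (u * d' - d * u') + s2 * (d * e' - e * d') := by
    rw [hu, hu']; ring
  unfold PP LL QQ
  rw [e1, e2]
  clear e1 e2 hf' hu hu'
  generalize d * e' - e * d' = p0 at *
  generalize e * u' - u * e' = q1 at *
  generalize u * d' - d * u' = q2 at *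
  linear_combination (d * p0 ^ 4 - 3 * d * s2 ^ 2 * p0 ^ 4 - 6 * s2 * d * q2 * p0 ^ 3) * h1
    + (e * p0 ^ 4 - 3 * e * s1 ^ 2 * p0 ^ 4 - 6 * s1 * e * q1 * p0 ^ 3) * h2
    + ((-6 * s1 ^ 2 * s2 ^ 2 + 3 * s1 ^ 2 + 3 * s2 ^ 2 - 1) * p0 ^ 3) * hpl
    + (6 * s1 * s2 * (s2 * q1 + s1 * q2) * p0 ^ 3 + 3 * s1 ^ 2 * s2 ^ 2 * p0 ^ 4) * hf

/-- (D2) -/
theorem D2 (s1 s2 f d e p0 q1 q2 u g al r0 r1 r2 : R)
    (hu : u = g ^ 2 * al ^ 2) (h0 : p0 = g * r0) (h1 : q1 = g * al * r1) (h2 : q2 = g * al * r2) :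
    g ^ 4 * al ^ 2 ∣ u * p0 ^ 3 * LL s1 s2 p0 q1 q2 + QQ s1 s2 f d e p0 q1 q2 := by
  subst hu h0 h1 h2
  unfold LL QQ
  refine ⟨g * r0 ^ 3 * ((9 * s1 ^ 2 * s2 ^ 2 - 3 * s1 ^ 2 - 3 * s2 ^ 2 + 1) * (g * r0)
      + 6 * s1 * s2 * (s2 * (g * al * r1) + s1 * (g * al * r2)))
    + 3 * f * (al ^ 2 * r1 ^ 2 * r2 ^ 2 + 2 * s2 * r0 * al * r1 ^ 2 * r2 + s2 ^ 2 * r0 ^ 2 * r1 ^ 2
      + 2 * s1 * r0 * al * r1 * r2 ^ 2 + 4 * s1 * s2 * r0 ^ 2 * r1 * r2 + s1 ^ 2 * r0 ^ 2 * r2 ^ 2)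
    + d * r0 * (al * r1 ^ 3 + 3 * s1 * r0 * r1 ^ 2 + 3 * al * r1 * r2 ^ 2 + 6 * s2 * r0 * r1 * r2
      + 3 * s1 * r0 * r2 ^ 2)
    + e * r0 * (al * r2 ^ 3 + 3 * s2 * r0 * r2 ^ 2 + 3 * al * r2 * r1 ^ 2 + 6 * s1 * r0 * r1 * r2
      + 3 * s2 * r0 * r1 ^ 2), ?_⟩
  ring

/-- (D3) for a row -/
theorem D3row (s1 s2 f d e p0 q1 q2 u g al r0 r1 r2 F : R) (hs : s2 ^ 3 = s2)
    (hf : f = u - s1 * d - s2 * e)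
    (hu : u = g ^ 2 * al ^ 2) (h0 : p0 = g * r0) (h1 : q1 = g * al * r1)
    (h2 : q2 = g ^ 4 * al * r2) (hd : d = g ^ 2 * F) :
    g ^ 6 * al ^ 2 ∣ u * p0 ^ 3 * LL s1 s2 p0 q1 q2 + QQ s1 s2 f d e p0 q1 q2 := by
  subst hf hu h0 h1 h2 hd
  unfold LL QQ
  refine ⟨r0 ^ 3 * ((9 * s1 ^ 2 * s2 ^ 2 - 3 * s1 ^ 2 - 3 * s2 ^ 2 + 1) * r0
      + 6 * s1 * s2 * (s2 * al * r1 + s1 * g ^ 3 * al * r2))
    + 3 * (al ^ 2 - s1 * F) * s2 ^ 2 * r0 ^ 2 * r1 ^ 2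
    + 3 * (g ^ 2 * al ^ 2 - s1 * (g ^ 2 * F) - s2 * e) * (g ^ 4 * al ^ 2 * r1 ^ 2 * r2 ^ 2
      + 2 * s2 * g * al * r0 * r1 ^ 2 * r2 + 2 * s1 * g ^ 4 * al * r0 * r1 * r2 ^ 2
      + 4 * s1 * s2 * g * r0 ^ 2 * r1 * r2 + s1 ^ 2 * g ^ 4 * r0 ^ 2 * r2 ^ 2)
    + F * r0 * al * r1 ^ 3 + 3 * s1 * F * r0 ^ 2 * r1 ^ 2 + 3 * g ^ 6 * al * F * r0 * r1 * r2 ^ 2
    + 6 * s2 * g ^ 3 * F * r0 ^ 2 * r1 * r2 + 3 * s1 * g ^ 6 * F * r0 ^ 2 * r2 ^ 2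
    + e * r0 * g ^ 7 * al * r2 ^ 3 + 3 * s2 * e * r0 ^ 2 * g ^ 4 * r2 ^ 2
    + 3 * e * r0 * g * al * r1 ^ 2 * r2 + 6 * s1 * e * r0 ^ 2 * g * r1 * r2, ?_⟩
  linear_combination (-3 * e * g ^ 4 * al ^ 2 * r0 ^ 2 * r1 ^ 2) * hs

/-- (D3) for a diagonal -/
theorem D3diag (s f d e p0 q1 q2 u g al r0 r1 r2 F : R)
    (hf : f = u - s * (d + e))
    (hu : u = g ^ 2 * al ^ 2) (h0 : p0 = g * r0) (h1 : q1 = g * al * r1)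
    (h2 : q2 = q1 + g ^ 4 * al * r2) (hd : d + e = g ^ 2 * F) :
    g ^ 6 * al ^ 2 ∣ u * p0 ^ 3 * LL s s p0 q1 q2 + QQ s s f d e p0 q1 q2 := by
  have hd' : d = g ^ 2 * F - e := by rw [← hd]; ring
  subst hd'
  subst hf hu h0 h1 h2
  unfold LL QQ
  refine ⟨r0 ^ 3 * ((9 * s ^ 2 * s ^ 2 - 3 * s ^ 2 - 3 * s ^ 2 + 1) * r0
      + 6 * s ^ 3 * (2 * al * r1 + g ^ 3 * al * r2))
    + 3 * (al ^ 2 - s * F) * (al ^ 2 * r1 ^ 2 * (r1 + g ^ 3 * r2) ^ 2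
      + 2 * s * al * r0 * r1 ^ 2 * (r1 + g ^ 3 * r2) + s ^ 2 * r0 ^ 2 * r1 ^ 2
      + 2 * s * al * r0 * r1 * (r1 + g ^ 3 * r2) ^ 2
      + 4 * s ^ 2 * r0 ^ 2 * r1 * (r1 + g ^ 3 * r2) + s ^ 2 * r0 ^ 2 * (r1 + g ^ 3 * r2) ^ 2)
    + r0 * F * (al * r1 ^ 3 + 3 * s * r0 * r1 ^ 2 + 3 * al * r1 * (r1 + g ^ 3 * r2) ^ 2
      + 6 * s * r0 * r1 * (r1 + g ^ 3 * r2) + 3 * s * r0 * (r1 + g ^ 3 * r2) ^ 2)
    + g ^ 7 * al * e * r0 * r2 ^ 3, ?_⟩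
  ring

end

end Pool.Helper16.F5
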